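import Mathlib

set_option autoImplicit false

/-!
MP_e326dc_an, block E3(i): the continuous characters of a compact abelian group separate points.
-/

namespace MP_e326dc_an

open MeasureTheory Filter Topology
open scoped InnerProductSpace ComplexConjugate

section unitary

variable {A : Type*} [CommGroup A]
variable {H : Type*} [NormedAddCommGroup H] [InnerProductSpace ℂ H]

/-- inner products are preserved -/
theorem char_inner (U : A →* (H →L[ℂ] H)) (hU : ∀ g v, ‖U g v‖ = ‖v‖) (g : A) (x y : H) :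
    ⟪U g x, U g y⟫_ℂ = ⟪x, y⟫_ℂ := by
  let L : H →ₗᵢ[ℂ] H := ⟨(U g : H →ₗ[ℂ] H), hU g⟩
  exact L.inner_map_map x y

theorem char_inv_apply (U : A →* (H →L[ℂ] H)) (g : A) (x : H) : U g (U g⁻¹ x) = x := by
  have : U g * U g⁻¹ = 1 := by rw [← map_mul, mul_inv_cancel, map_one]
  calc U g (U g⁻¹ x) = (U g * U g⁻¹) x := rfl
    _ = x := by rw [this]; rfl

theorem char_comm (U : A →* (H →L[ℂ] H)) (g h : A) (x : H) : U g (U h x) = U h (U g x) := by
  have : U g * U h = U h * U g := by rw [← map_mul, ← map_mul, mul_comm]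
  calc U g (U h x) = (U g * U h) x := rfl
    _ = (U h * U g) x := by rw [this]
    _ = U h (U g x) := rfl

/-- the compact operator `∫ ⟨U g v, ·⟩ U g v dg` -/
theorem exists_compact_comm [TopologicalSpace A] [IsTopologicalGroup A] [CompactSpace A]
    [CompleteSpace H] (U : A →* (H →L[ℂ] H)) (hU : ∀ g v, ‖U g v‖ = ‖v‖)
    (hc : ∀ v, Continuous fun g => U g v) (K : Submodule ℂ H) (hK : IsClosed (K : Set H))
    (hKU : ∀ g, ∀ x ∈ K, U g x ∈ K) (v : H) (hv : v ≠ 0) (hvK : v ∈ K) :
    ∃ T : H →L[ℂ] H, T ≠ 0 ∧ IsCompactOperator T ∧ (T : H →ₗ[ℂ] H).IsSymmetric ∧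
      (∀ g x, U g (T x) = T (U g x)) ∧ ∀ x, T x ∈ K := by
  letI : MeasurableSpace A := borel A
  haveI : BorelSpace A := ⟨rfl⟩
  let μ : Measure A := Measure.haarMeasure ⊤
  haveI : IsProbabilityMeasure μ := by
    refine ⟨?_⟩
    have h := Measure.haarMeasure_self (K₀ := (⊤ : TopologicalSpace.PositiveCompacts A))
    simpa using h
  let R : A → (H →L[ℂ] H) := fun g => ContinuousLinearMap.smulRight (innerSL ℂ (U g v)) (U g v)
  have hRapp : ∀ g x, R g x = ⟪U g v, x⟫_ℂ • U g v := fun g x => by
    simp [R]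
  have hRc : Continuous R := by
    have h1 : Continuous fun g => innerSL ℂ (U g v) := (innerSL ℂ).continuous.comp (hc v)
    have h2 : Continuous fun g =>
        ContinuousLinearMap.smulRightL ℂ H H (innerSL ℂ (U g v)) :=
      (ContinuousLinearMap.smulRightL ℂ H H).continuous.comp h1
    exact h2.clm_apply (hc v)
  have hRi : Integrable R μ := hRc.integrable_of_hasCompactSupport (HasCompactSupport.of_compactSpace _)
  let T : H →L[ℂ] H := ∫ g, R g ∂μ
  have hTapp : ∀ x, T x = ∫ g, R g x ∂μ := fun x => ContinuousLinearMap.integral_apply hRi x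
  refine ⟨T, ?_, ?_, ?_, ?_, ?_⟩
  · intro h0
    have h1 : ⟪v, T v⟫_ℂ = 0 := by rw [h0]; simp
    have hRvc : Continuous fun g => R g v := hRc.clm_apply continuous_const
    have hRvi : Integrable (fun g => R g v) μ :=
      hRvc.integrable_of_hasCompactSupport (HasCompactSupport.of_compactSpace _)
    have h2 : ⟪v, T v⟫_ℂ = ∫ g, ((‖⟪U g v, v⟫_ℂ‖ ^ 2 : ℝ) : ℂ) ∂μ := by
      rw [hTapp, ← integral_inner hRvi v]
      refine integral_congr_ae (Eventually.of_forall fun g => ?_)
      simp only [hRapp, inner_smul_right]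
      rw [← inner_conj_symm v (U g v)]
      rw [RCLike.mul_conj]
      norm_cast
    have h3 : ∫ g, (‖⟪U g v, v⟫_ℂ‖ ^ 2 : ℝ) ∂μ = 0 := by
      have := h2.symm.trans h1
      rw [integral_complex_ofReal] at this
      exact_mod_cast this
    have hcont : Continuous fun g => (‖⟪U g v, v⟫_ℂ‖ ^ 2 : ℝ) :=
      (((hc v).inner continuous_const).norm).pow 2
    have h4 : 0 < ∫ g, (‖⟪U g v, v⟫_ℂ‖ ^ 2 : ℝ) ∂μ := by
      refine hcont.integral_pos_of_hasCompactSupport_nonneg_nonzero
        (HasCompactSupport.of_compactSpace _) (fun g => by positivity) (x := 1) ?_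
      have : ⟪U 1 v, v⟫_ℂ ≠ 0 := by
        rw [map_one]
        simpa using hv
      positivity
    exact h4.ne' h3
  · have hconv : Convex ℝ {S : H →L[ℂ] H | IsCompactOperator S} := by
      intro S hS S' hS' a b _ _ _
      have h1 : IsCompactOperator (a • S) := hS.smul a
      have h2 : IsCompactOperator (b • S') := hS'.smul b
      exact h1.add h2
    refine hconv.integral_mem isClosed_setOfPred_isCompactOperator
      (Eventually.of_forall fun g => ?_) hRi
    -- a rank one operator is compact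
    have h1 : IsCompactOperator (innerSL ℂ (U g v) : H →L[ℂ] ℂ) := by
      refine ⟨Metric.closedBall (0 : ℂ) 1, isCompact_closedBall 0 1, ?_⟩
      exact (innerSL ℂ (U g v) : H →L[ℂ] ℂ).continuous.continuousAt.preimage_mem_nhds
        (by rw [map_zero]; exact Metric.closedBall_mem_nhds 0 one_pos)
    have h2 : (R g : H → H) = (ContinuousLinearMap.toSpanSingleton ℂ (U g v)) ∘
        (innerSL ℂ (U g v) : H →L[ℂ] ℂ) := by
      funext x; simp [hRapp]
    change IsCompactOperator (R g)
    rw [h2]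
    exact h1.clm_comp (ContinuousLinearMap.toSpanSingleton ℂ (U g v))
  · have hconv : Convex ℝ {S : H →L[ℂ] H | ∀ x y, ⟪S x, y⟫_ℂ = ⟪x, S y⟫_ℂ} := by
      intro S hS S' hS' a b _ _ _ x y
      have e1 := hS x y
      have e2 := hS' x y
      change ⟪a • S x + b • S' x, y⟫_ℂ = ⟪x, a • S y + b • S' y⟫_ℂ
      simp only [← Complex.coe_smul, inner_add_left,
        inner_add_right, inner_smul_left, inner_smul_right, e1, e2, Complex.conj_ofReal]
    have hclosed : IsClosed {S : H →L[ℂ] H | ∀ x y, ⟪S x, y⟫_ℂ = ⟪x, S y⟫_ℂ} := by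
      simp only [Set.ofPred_forall]
      refine isClosed_iInter fun x => isClosed_iInter fun y => isClosed_eq ?_ ?_
      · exact (continuous_id.clm_apply continuous_const).inner continuous_const
      · exact continuous_const.inner (continuous_id.clm_apply continuous_const)
    have hmem : T ∈ {S : H →L[ℂ] H | ∀ x y, ⟪S x, y⟫_ℂ = ⟪x, S y⟫_ℂ} := by
      refine hconv.integral_mem hclosed (Eventually.of_forall fun g => ?_) hRi
      intro x y
      simp only [hRapp, inner_smul_left, inner_smul_right, inner_conj_symm]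
      ring
    intro x y
    exact hmem x y
  · intro h x
    have hi : ∀ x, Integrable (fun g => R g x) μ := fun x =>
      (hRc.clm_apply continuous_const).integrable_of_hasCompactSupport
        (HasCompactSupport.of_compactSpace _)
    rw [hTapp, hTapp, ← (U h).integral_comp_comm (hi x)]
    have e1 : ∀ g, U h (R g x) = R (h * g) (U h x) := by
      intro g
      rw [hRapp, hRapp, map_smul, map_mul]
      congr 1
      exact (char_inner U hU h (U g v) x).symm
    simp_rw [e1]
    exact integral_mul_left_eq_self (fun g => R g (U h x)) h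
  · intro x
    have hconv : Convex ℝ {S : H →L[ℂ] H | S x ∈ K} := by
      intro S hS S' hS' a b _ _ _
      exact K.add_mem (K.smul_of_tower_mem a hS) (K.smul_of_tower_mem b hS')
    have hclosed : IsClosed {S : H →L[ℂ] H | S x ∈ K} :=
      hK.preimage (continuous_id.clm_apply continuous_const)
    refine hconv.integral_mem hclosed (Eventually.of_forall fun g => ?_) hRi
    change R g x ∈ K
    rw [hRapp]
    exact K.smul_mem _ (hKU g v hvK)

/-- a commuting family of invertible operators leaving a nonzero finite-dimensional space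
invariant has a common eigenvector -/
theorem exists_common_eigenvector (U : A →* (H →L[ℂ] H)) (E : Submodule ℂ H)
    [FiniteDimensional ℂ E] (hE : E ≠ ⊥) (hEU : ∀ g, ∀ x ∈ E, U g x ∈ E) :
    ∃ w ∈ E, w ≠ 0 ∧ ∀ g, ∃ c : ℂ, U g w = c • w := by
  classical
  -- the set of dimensions of nonzero invariant subspaces of `E`
  let P : ℕ → Prop := fun n => ∃ W : Submodule ℂ H, W ≤ E ∧ W ≠ ⊥ ∧
    (∀ g, ∀ x ∈ W, U g x ∈ W) ∧ Module.finrank ℂ W = n
  have hP : ∃ n, P n := ⟨_, E, le_rfl, hE, hEU, rfl⟩
  obtain ⟨W, hWE, hW0, hWU, hWn⟩ := Nat.find_spec hP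
  have hmin := fun m (hm : m < Nat.find hP) => Nat.find_min hP hm
  haveI : FiniteDimensional ℂ W := Submodule.finiteDimensional_of_le hWE
  obtain ⟨w, hwW, hw0⟩ := W.ne_bot_iff.mp hW0
  refine ⟨w, hWE hwW, hw0, fun g => ?_⟩
  -- restrict `U g` to `W`
  let S : Module.End ℂ W := (U g : H →ₗ[ℂ] H).restrict (hWU g)
  haveI : Nontrivial W := ⟨⟨⟨w, hwW⟩, 0, fun h => hw0 (by simpa using congrArg Subtype.val h)⟩⟩
  obtain ⟨c, hc⟩ := Module.End.exists_eigenvalue S
  let V : Submodule ℂ H := W ⊓ LinearMap.ker ((U g : H →ₗ[ℂ] H) - c • LinearMap.id)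
  have hmemV : ∀ x, x ∈ V ↔ x ∈ W ∧ U g x = c • x := by
    intro x
    simp only [V, Submodule.mem_inf, LinearMap.mem_ker, LinearMap.sub_apply,
      LinearMap.smul_apply, LinearMap.id_apply, sub_eq_zero]
    rfl
  have hVU : ∀ h, ∀ x ∈ V, U h x ∈ V := by
    intro h x hx
    rw [hmemV] at hx ⊢
    refine ⟨hWU h x hx.1, ?_⟩
    rw [char_comm, hx.2, map_smul]
  have hV0 : V ≠ ⊥ := by
    obtain ⟨u, hu⟩ := hc.exists_hasEigenvector
    intro h
    have hu1 : (u : H) ∈ V := by
      rw [hmemV]
      refine ⟨u.2, ?_⟩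
      have := hu.apply_eq_smul
      have := congrArg Subtype.val this
      exact this
    rw [h] at hu1
    exact hu.2 (by simpa using hu1)
  have hVW : V = W := by
    by_contra hne
    have hlt : V < W := lt_of_le_of_ne inf_le_left hne
    have := Submodule.finrank_lt_finrank_of_lt hlt
    exact hmin (Module.finrank ℂ V) (hWn ▸ this) ⟨V, inf_le_left.trans hWE, hV0, hVU, rfl⟩
  exact ⟨c, ((hmemV w).mp (hVW ▸ hwW)).2⟩

/-- a nontrivial operator of a strongly continuous unitary representation of a compact abelian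
group is detected by a continuous character -/
theorem exists_char_of_unitary [TopologicalSpace A] [IsTopologicalGroup A] [CompactSpace A]
    [CompleteSpace H] (U : A →* (H →L[ℂ] H)) (hU : ∀ g v, ‖U g v‖ = ‖v‖)
    (hc : ∀ v, Continuous fun g => U g v) (a : A) (ha : U a ≠ 1) :
    ∃ χ : A →* Circle, Continuous χ ∧ χ a ≠ 1 := by
  let F : Submodule ℂ H := LinearMap.ker ((U a : H →ₗ[ℂ] H) - LinearMap.id)
  have hF : ∀ x, x ∈ F ↔ U a x = x := by
    intro x
    simp only [F, LinearMap.mem_ker, LinearMap.sub_apply, LinearMap.id_apply, sub_eq_zero]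
    rfl
  have hFclosed : IsClosed (F : Set H) := by
    have : (F : Set H) = {x | U a x = x} := by
      ext x; exact hF x
    rw [this]
    exact isClosed_eq (U a).continuous continuous_id
  haveI : F.HasOrthogonalProjection := by
    haveI : CompleteSpace F := hFclosed.completeSpace_coe
    infer_instance
  have hFU : ∀ g, ∀ x ∈ F, U g x ∈ F := by
    intro g x hx
    rw [hF] at hx ⊢
    rw [char_comm, hx]
  have hKU : ∀ g, ∀ x ∈ Fᗮ, U g x ∈ Fᗮ := by
    intro g x hx
    rw [Submodule.mem_orthogonal] at hx ⊢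
    intro k hk
    have h1 := hx (U g⁻¹ k) (hFU _ k hk)
    rw [← char_inv_apply U g k, char_inner U hU]
    exact h1
  have hK0 : Fᗮ ≠ ⊥ := by
    intro h
    have hFtop : F = ⊤ := (Submodule.orthogonal_eq_bot_iff).mp h
    apply ha
    ext x
    have : x ∈ F := by rw [hFtop]; trivial
    exact (hF x).mp this
  obtain ⟨v, hvK, hv0⟩ := (Fᗮ).ne_bot_iff.mp hK0
  obtain ⟨T, hT0, hTc, hTs, hTU, hTK⟩ := exists_compact_comm U hU hc Fᗮ
    (Submodule.isClosed_orthogonal F) hKU v hv0 hvK
  have hex : ∃ l : ℂ, Module.End.HasEigenvalue (T : Module.End ℂ H) l ∧ l ≠ 0 := by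
    by_contra hcon
    push Not at hcon
    exact hT0 ((ContinuousLinearMap.eq_zero_of_forall_hasEigenvalue_eq_zero hTc hTs).mp hcon)
  obtain ⟨l, hl, hl0⟩ := hex
  let E : Submodule ℂ H := Module.End.eigenspace (T : Module.End ℂ H) l
  haveI : FiniteDimensional ℂ E := ContinuousLinearMap.finite_dimensional_eigenspace hTc l hl0
  have hE : ∀ x, x ∈ E ↔ T x = l • x := by
    intro x
    exact Module.End.mem_eigenspace_iff
  obtain ⟨w, hwE, hw0, hw⟩ := exists_common_eigenvector U E hl (by
    intro g x hx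
    rw [hE] at hx ⊢
    rw [← hTU, hx, map_smul])
  choose c hc' using hw
  have hcn : ∀ g, ‖c g‖ = 1 := by
    intro g
    have h1 := hU g w
    rw [hc', norm_smul] at h1
    have : ‖w‖ ≠ 0 := norm_ne_zero_iff.mpr hw0
    exact (mul_eq_right₀ this).mp h1
  have hcm : ∀ g h, c (g * h) = c g * c h := by
    intro g h
    have h1 : U (g * h) w = (c g * c h) • w := by
      rw [map_mul]
      change U g (U h w) = _
      rw [hc' h, map_smul, hc' g, smul_smul, mul_comm]
    rw [hc'] at h1
    exact smul_left_injective ℂ hw0 h1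
  have hcc : Continuous c := by
    have h1 : c = fun g => ⟪w, U g w⟫_ℂ / ⟪w, w⟫_ℂ := by
      funext g
      rw [hc', inner_smul_right, mul_div_assoc, div_self (inner_self_ne_zero.mpr hw0), mul_one]
    rw [h1]
    exact (continuous_const.inner (hc w)).div_const _
  let χ : A →* Circle := MonoidHom.mk' (fun g => ⟨c g, by
    simp [Submonoid.unitSphere, hcn g]⟩) (by
      intro g h
      ext
      exact hcm g h)
  refine ⟨χ, ?_, ?_⟩
  · exact Continuous.subtype_mk hcc _
  · intro h
    have h1 : c a = 1 := congrArg Subtype.val h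
    have h2 : w ∈ F := by
      rw [hF, hc', h1, one_smul]
    have h3 : w ∈ Fᗮ := by
      have h4 : T w = l • w := (hE w).mp hwE
      have h5 : w = l⁻¹ • T w := by rw [h4, smul_smul, inv_mul_cancel₀ hl0, one_smul]
      rw [h5]
      exact Submodule.smul_mem _ _ (hTK w)
    have h6 : ⟪w, w⟫_ℂ = 0 := (Submodule.mem_orthogonal _ _).mp h3 w h2
    exact hw0 (inner_self_eq_zero.mp h6)

end unitary

section regular

variable {A : Type*} [CommGroup A] [TopologicalSpace A] [IsTopologicalGroup A] [CompactSpace A]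
  [T2Space A]

/-- **The continuous characters of a compact abelian group separate points.** -/
theorem exists_char_ne_one {a : A} (ha : a ≠ 1) :
    ∃ χ : A →* Circle, Continuous χ ∧ χ a ≠ 1 := by
  letI : MeasurableSpace A := borel A
  haveI : BorelSpace A := ⟨rfl⟩
  let μ : Measure A := Measure.haarMeasure ⊤
  haveI : IsProbabilityMeasure μ := by
    refine ⟨?_⟩
    have h := Measure.haarMeasure_self (K₀ := (⊤ : TopologicalSpace.PositiveCompacts A))
    simpa using h
  have hmp : ∀ g : A, MeasurePreserving (fun x => g * x) μ μ := fun g =>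
    measurePreserving_mul_left μ g
  haveI : Fact ((1 : ENNReal) ≤ 2) := ⟨by norm_num⟩
  let U' : A → (Lp ℂ 2 μ →L[ℂ] Lp ℂ 2 μ) := fun g =>
    (Lp.compMeasurePreservingₗᵢ ℂ (fun x => g * x) (hmp g)).toContinuousLinearMap
  have hU'app : ∀ g (f : Lp ℂ 2 μ), U' g f = Lp.compMeasurePreserving (fun x => g * x) (hmp g) f :=
    fun g f => rfl
  have hU'coe : ∀ g (f : Lp ℂ 2 μ), (U' g f : A → ℂ) =ᵐ[μ] fun x => f (g * x) := by
    intro g f
    rw [hU'app]
    exact Lp.coeFn_compMeasurePreserving f (hmp g)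
  have hmul : ∀ g h : A, U' (g * h) = U' g * U' h := by
    intro g h
    ext1 f
    apply Lp.ext
    have e1 := hU'coe (g * h) f
    have e2 := hU'coe g (U' h f)
    have e3 := (hmp g).quasiMeasurePreserving.ae_eq_comp (hU'coe h f)
    refine e1.trans ?_
    refine EventuallyEq.trans ?_ e2.symm
    refine EventuallyEq.trans ?_ e3.symm
    refine Eventually.of_forall fun x => ?_
    simp only [Function.comp_apply]
    congr 1
    rw [mul_comm g h, mul_assoc]
  have hone : U' 1 = 1 := by
    ext1 f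
    apply Lp.ext
    refine (hU'coe 1 f).trans (Eventually.of_forall fun x => ?_)
    simp
  let U : A →* (Lp ℂ 2 μ →L[ℂ] Lp ℂ 2 μ) := ⟨⟨U', hone⟩, hmul⟩
  have hUn : ∀ g v, ‖U g v‖ = ‖v‖ := fun g v =>
    (Lp.compMeasurePreservingₗᵢ ℂ (fun x => g * x) (hmp g)).norm_map v
  have hUc : ∀ v, Continuous fun g => U g v := by
    intro v
    let g0 : C(A, C(A, A)) := (ContinuousMap.mk (fun q : A × A => q.1 * q.2) continuous_mul).curry
    have hg0 : ∀ g, MeasurePreserving (g0 g) μ μ := fun g => hmp g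
    exact Continuous.compMeasurePreservingLp (f := fun _ => v) (g := fun z => g0 z)
      continuous_const g0.continuous hg0 (by norm_num)
  refine exists_char_of_unitary U hUn hUc a ?_
  intro hUa
  -- a Urysohn function
  obtain ⟨f, hf0, hf1, -⟩ := exists_continuous_zero_one_of_isClosed (s := {(1 : A)}) (t := {a})
    isClosed_singleton isClosed_singleton (by simpa using Ne.symm ha)
  let F : C(A, ℂ) := ⟨fun x => (f x : ℂ), Complex.continuous_ofReal.comp f.continuous⟩
  have hFm : MemLp F 2 μ := by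
    refine (F.continuous.memLp_of_hasCompactSupport (HasCompactSupport.of_compactSpace _))
  have e1 : U a (hFm.toLp F) = hFm.toLp F := by rw [hUa]; rfl
  have e2 := hU'coe a (hFm.toLp F)
  have e3 : (U a (hFm.toLp F) : A → ℂ) =ᵐ[μ] (hFm.toLp F : A → ℂ) := by rw [e1]
  have e4 := (hmp a).quasiMeasurePreserving.ae_eq_comp hFm.coeFn_toLp
  have e5 : (fun x => F (a * x)) =ᵐ[μ] fun x => F x := by
    refine EventuallyEq.trans ?_ (e3.trans hFm.coeFn_toLp)
    exact (e2.trans e4).symm
  have e6 : (fun x => F (a * x)) = fun x => F x :=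
    (Continuous.ae_eq_iff_eq μ (F.continuous.comp (continuous_const.mul continuous_id))
      F.continuous).mp e5
  have e7 := congrFun e6 1
  have e8 : f a = 1 := hf1 rfl
  have e9 : f 1 = 0 := hf0 rfl
  simp only [mul_one, F, ContinuousMap.coe_mk, e8, e9] at e7
  norm_num at e7

/-- Every neighbourhood of `1` of a compact abelian group contains the kernel of a continuous
homomorphism to a torus. -/
theorem exists_torus_hom {V : Set A} (hV : V ∈ 𝓝 (1 : A)) :
    ∃ (m : ℕ) (χ : Fin m → A →* Circle), (∀ i, Continuous (χ i)) ∧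
      ∀ a, (∀ i, χ i a = 1) → a ∈ V := by
  classical
  obtain ⟨O, hOV, hO, h1O⟩ := mem_nhds_iff.mp hV
  have hex : ∀ a : A, a ∈ Oᶜ → ∃ χ : A →* Circle, Continuous χ ∧ χ a ≠ 1 := by
    intro a haO
    exact exists_char_ne_one (fun h => haO (h ▸ h1O))
  choose! χ hχc hχa using hex
  have hcomp : IsCompact Oᶜ := hO.isClosed_compl.isCompact
  obtain ⟨t, htO, ht⟩ := hcomp.elim_nhds_subcover (fun a => {x | χ a x ≠ 1}) (by
    intro a ha
    exact (isOpen_ne.preimage (hχc a ha)).mem_nhds (hχa a ha))
  let e := t.equivFin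
  refine ⟨t.card, fun i => χ (e.symm i : A), fun i => hχc _ (htO _ (e.symm i).2), ?_⟩
  intro a ha
  by_contra haV
  have haO : a ∈ Oᶜ := fun h => haV (hOV h)
  obtain ⟨b, hbt, hb⟩ := Set.mem_iUnion₂.mp (ht haO)
  apply hb
  have := ha (e ⟨b, hbt⟩)
  simpa using this

end regular

end MP_e326dc_an
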